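import Pool.Agent.Q101.PGap

/-!
# MP_6095cf: partially greedy Schauder bases along sequences with arbitrarily large gaps

For every sequence `n` with arbitrarily large gaps there is a Schauder basis that is
`n`-quasi-greedy and `n`-order-conservative but not `n`-partially greedy.

Indices start at `0`: the set `{1, ..., n}` of the problem is `Finset.range n`.
-/

set_option autoImplicit false

open Filter Topology Finset
open scoped ENNReal

namespace Pool.Agent.Results.MP_6095cf_an.GapsFail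

/-- the sequence of positive integers `n` has arbitrarily large gaps:
`limsup n_{k+1} / n_k = ∞` -/
def LargeGaps (n : ℕ → ℕ) : Prop :=
  limsup (fun k => (n (k + 1) : ℝ≥0∞) / (n k : ℝ≥0∞)) atTop = ⊤

section Defs

variable {𝕜 : Type} [RCLike 𝕜] {X : Type} [NormedAddCommGroup X] [NormedSpace 𝕜 X]

/-- `e` is a semi-normalized Markushevich basis of `X` with biorthogonal functionals `f`. -/
structure IsBasis (e : ℕ → X) (f : ℕ → StrongDual 𝕜 X) : Prop where
  biorthogonal : ∀ i j, f i (e j) = if i = j then 1 else 0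
  fundamental : closure (Submodule.span 𝕜 (Set.range e) : Set X) = Set.univ
  total : ∀ x, (∀ i, f i x = 0) → x = 0
  bounded : ∃ C : ℝ, ∀ i, ‖e i‖ ≤ C ∧ ‖f i‖ ≤ C

/-- the partial sums are uniformly bounded -/
def IsSchauder (e : ℕ → X) (f : ℕ → StrongDual 𝕜 X) : Prop :=
  ∃ C : ℝ, ∀ (x : X) (m : ℕ), ‖∑ i ∈ range m, f i x • e i‖ ≤ C * ‖x‖

/-- `A` is a greedy set of `x` (of order `A.card`) -/
def IsGreedySet (f : ℕ → StrongDual 𝕜 X) (x : X) (A : Finset ℕ) : Prop :=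
  ∀ i ∈ A, ∀ k, k ∉ A → ‖f k x‖ ≤ ‖f i x‖

/-- `n`-quasi-greedy -/
def QuasiGreedy (n : ℕ → ℕ) (e : ℕ → X) (f : ℕ → StrongDual 𝕜 X) : Prop :=
  ∃ C : ℝ, ∀ (x : X) (k : ℕ) (A : Finset ℕ), A.card = n k → IsGreedySet f x A →
    ‖∑ i ∈ A, f i x • e i‖ ≤ C * ‖x‖

/-- `n`-partially greedy -/
def PartiallyGreedy (n : ℕ → ℕ) (e : ℕ → X) (f : ℕ → StrongDual 𝕜 X) : Prop :=
  ∃ C : ℝ, ∀ (x : X) (k : ℕ) (A : Finset ℕ), A.card = n k → IsGreedySet f x A →
    ‖x - ∑ i ∈ A, f i x • e i‖ ≤ C * ‖x - ∑ i ∈ range (n k), f i x • e i‖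

/-- `n`-order-conservative -/
def OrderConservative (n : ℕ → ℕ) (e : ℕ → X) : Prop :=
  ∃ C : ℝ, ∀ (A B : Finset ℕ) (k : ℕ), A.card = B.card → (∀ i ∈ A, i < n k) →
    (∀ i ∈ B, n k ≤ i) → ‖∑ i ∈ A, e i‖ ≤ C * ‖∑ i ∈ B, e i‖

end Defs

theorem exists_gap {n : ℕ → ℕ} (hn : StrictMono n) (h0 : 0 < n 0) (h : LargeGaps n) (M K : ℕ) :
    ∃ k, K ≤ k ∧ M * n k ≤ n (k + 1) := by
  have h1 : (M : ℝ≥0∞) < limsup (fun k => (n (k + 1) : ℝ≥0∞) / (n k : ℝ≥0∞)) atTop := by
    rw [show limsup (fun k => (n (k + 1) : ℝ≥0∞) / (n k : ℝ≥0∞)) atTop = ⊤ from h]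
    exact ENNReal.natCast_lt_top M
  have h2 := frequently_lt_of_lt_limsup (by isBoundedDefault) h1
  rw [frequently_atTop] at h2
  obtain ⟨k, hk, hk'⟩ := h2 K
  refine ⟨k, hk, ?_⟩
  have hk0 : n k ≠ 0 := by
    have := hn.monotone (Nat.zero_le k)
    omega
  rw [ENNReal.lt_div_iff_mul_lt (Or.inl (by exact_mod_cast hk0))
    (Or.inl (ENNReal.natCast_ne_top _))] at hk'
  exact_mod_cast hk'.le

theorem exists_params {n : ℕ → ℕ} (hn : StrictMono n) (h0 : 0 < n 0) (h : LargeGaps n) :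
    ∃ (P : Q101.PGap.Params) (κ : ℕ → ℕ), (∀ l, P.p l = n (κ l)) ∧ ∀ l, P.q l = n (κ l + 1) := by
  choose k hk1 hk2 using fun M K => exists_gap hn h0 h M K
  let κ : ℕ → ℕ := fun l => Nat.rec (k (8 * 2 ^ 2) 0)
    (fun l r => k (8 * (l + 1 + 2) ^ 2) (r + 1)) l
  have hκs : ∀ l, κ (l + 1) = k (8 * (l + 1 + 2) ^ 2) (κ l + 1) := fun l => rfl
  refine ⟨⟨fun l => n (κ l), fun l => n (κ l + 1), fun l => ?_, fun l => ?_, fun l => ?_⟩, κ,
    fun l => rfl, fun l => rfl⟩
  · exact h0.trans_le (hn.monotone (Nat.zero_le _))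
  · cases l with
    | zero => exact hk2 _ _
    | succ l => exact hk2 _ _
  · refine hn.monotone ?_
    rw [hκs]
    exact hk1 _ _

/-- Sequences with arbitrarily large gaps exist, and for every one of them (and for real and for
complex scalars) there is a Schauder basis that is `n`-quasi-greedy and `n`-order-conservative
but not `n`-partially greedy. -/
theorem result (𝕜 : Type) [RCLike 𝕜] :
    (∃ n : ℕ → ℕ, StrictMono n ∧ 0 < n 0 ∧ LargeGaps n) ∧
    ∀ n : ℕ → ℕ, StrictMono n → 0 < n 0 → LargeGaps n →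
      ∃ (X : Type) (_ : NormedAddCommGroup X) (_ : NormedSpace 𝕜 X) (_ : CompleteSpace X)
        (e : ℕ → X) (f : ℕ → StrongDual 𝕜 X),
        IsBasis e f ∧ IsSchauder e f ∧ QuasiGreedy n e f ∧ OrderConservative n e ∧
          ¬ PartiallyGreedy n e f := by
  constructor
  · refine ⟨fun k => (k + 1).factorial, ?_, by simp, ?_⟩
    · refine strictMono_nat_of_lt_succ fun k => ?_
      rw [Nat.factorial_succ (k + 1)]
      have := (k + 1).factorial_pos
      nlinarith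
    · unfold LargeGaps
      have h1 : (fun k : ℕ => (((k + 1 + 1).factorial : ℕ) : ℝ≥0∞) / ((k + 1).factorial : ℕ)) =
          fun k : ℕ => ((k + 2 : ℕ) : ℝ≥0∞) := by
        funext k
        rw [Nat.factorial_succ (k + 1), Nat.cast_mul, mul_div_assoc, ENNReal.div_self, mul_one]
        · exact_mod_cast (k + 1).factorial_pos.ne'
        · exact ENNReal.natCast_ne_top _
      show limsup (fun k : ℕ => (((k + 1 + 1).factorial : ℕ) : ℝ≥0∞) / ((k + 1).factorial : ℕ))
        atTop = ⊤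
      rw [h1]
      refine Tendsto.limsup_eq ?_
      exact ENNReal.tendsto_nat_nhds_top.comp (tendsto_add_atTop_nat 2)
  · intro n hn h0 hgap
    obtain ⟨P, κ, hp, hq⟩ := exists_params hn h0 hgap
    have hdich : ∀ k l, n k ≤ P.p l ∨ P.q l ≤ n k := by
      intro k l
      rw [hp, hq]
      rcases le_or_gt k (κ l) with h | h
      · exact Or.inl (hn.monotone h)
      · exact Or.inr (hn.monotone h)
    refine ⟨Q101.MonoB.X (Q101.PGap.NS 𝕜 P), inferInstance, inferInstance, inferInstance,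
      Q101.MonoB.e _, Q101.MonoB.f _, ⟨Q101.MonoB.f_e _, Q101.MonoB.dense, Q101.MonoB.total,
        1, fun i => ⟨(Q101.MonoB.norm_e i).le, (Q101.MonoB.norm_f i).le⟩⟩,
      ⟨1, fun x m => by rw [one_mul]; exact Q101.MonoB.norm_partial_le x m⟩,
      ⟨2, fun x k A hA hG => Q101.PGap.quasi_greedy x A (fun l => by
        rw [hA]; exact hdich k l) hG⟩,
      ⟨1, fun A B k hAB hA hB => by
        rw [one_mul]
        exact Q101.PGap.order_conservative A B (n k) (hdich k) hAB hA hB⟩, ?_⟩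
    rintro ⟨C, hC⟩
    obtain ⟨l, hl⟩ := Q101.PGap.not_partially_greedy (𝕜 := 𝕜) (P := P) C
    have h1 := hC (Q101.PGap.xx 𝕜 P l) (κ l + 1) (Q101.PGap.GG P l)
      (by rw [Q101.PGap.GG_card, hq]) (fun i hi k _ => by
        rw [Q101.PGap.f_xx, Q101.PGap.f_xx, Q101.PGap.GG_cc l i hi, norm_one]
        exact Q101.PGap.norm_cc l k)
    rw [← hq] at h1
    exact absurd h1 (not_le.2 hl)

end Pool.Agent.Results.MP_6095cf_an.GapsFail
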